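import Mathlib
import Pool.Agent.QU13.Main

set_option autoImplicit false

namespace Pool.Agent.Old34.ApproxUnimodal

/-- Approximate unimodality of the descent counts of the linear extensions, for every finite poset
and every labelling, natural or not. -/
theorem result :
    ∀ (α : Type) [Fintype α] [PartialOrder α] (f : α ≃ Fin (Fintype.card α)),
      ∀ w : ℕ → ℕ,
        (∀ k : ℕ, w k = Nat.card {σ : Fin (Fintype.card α) ≃ α //
            (∀ i j : Fin (Fintype.card α), σ i < σ j → i < j) ∧
            Nat.card {i : Fin (Fintype.card α) //
              ∃ h : i.val + 1 < Fintype.card α,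
                f (σ ⟨i.val + 1, h⟩) < f (σ i)} = k}) →
        ∀ b : ℕ,
          12 * min (∑ i ∈ Finset.range b, w i) (∑ i ∈ Finset.Ioo b (Fintype.card α), w i) ≤
            (Fintype.card α - 1) * (5 * Fintype.card α - 4) * w b := by
  intro α _ _ f w hw b
  exact Pool.QU13.approx_unimodal f w hw b

end Pool.Agent.Old34.ApproxUnimodal
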