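import Mathlib
import Pool.Agent.HB45.Final
import Pool.Agent.HM63.Pos

set_option autoImplicit false

namespace Pool.Agent.Old34.BoundedHeight

/-- The number of linear extensions of `α` (`σ i` is the element in position `i`) with `k`
descents for the labelling `f`. -/
noncomputable def desNum {α : Type} [PartialOrder α] {n : ℕ} (f : α ≃ Fin n) (k : ℕ) : ℕ :=
  Nat.card {σ : Fin n ≃ α // (∀ i j : Fin n, σ i < σ j → i < j) ∧
    Nat.card {i : Fin n // ∃ h : i.val + 1 < n, f (σ ⟨i.val + 1, h⟩) < f (σ i)} = k}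

/-- The sequence of descent numbers is unimodal. -/
def Unimodal {α : Type} [PartialOrder α] {n : ℕ} (f : α ≃ Fin n) : Prop :=
  ∃ m : ℕ, ∀ k : ℕ, (k < m → desNum f k ≤ desNum f (k + 1)) ∧
    (m ≤ k → desNum f (k + 1) ≤ desNum f k)

theorem result :
    ∃ N : ℕ → ℕ, ∀ (h n : ℕ) (α : Type) [PartialOrder α] (f : α ≃ Fin n),
      (∀ x y : α, x < y → f x < f y) →
      (∀ s : Finset α, IsChain (· ≤ ·) (s : Set α) → s.card ≤ h) →
      (N h ≤ n → Unimodal f) ∧
      (10 ^ 15 * h ^ 2 ≤ n → ∀ k : ℕ, 1 ≤ k → 10 ^ 15 * (2 * (k : ℤ) - n) ^ 2 ≤ n →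
        desNum f (k - 1) + desNum f (k + 1) < 2 * desNum f k) ∧
      (10 ^ 17 * h ^ 2 ≤ n → (∀ k : ℕ, 2 * (k + 1) + h ≤ n → desNum f k ≤ desNum f (k + 1)) →
        Unimodal f) := by
  choose N hN using Pool.HB45.bounded_height
  refine ⟨N, fun h n α _ f hf hs => ?_⟩
  have : Fintype α := Fintype.ofEquiv _ f.symm
  have hcard : Fintype.card α = n := by rw [Fintype.card_congr f, Fintype.card_fin]
  refine ⟨fun hn => hN h n hn α f hf hs, fun hn k hk hk' => ?_, fun hn hinc => ?_⟩
  · rcases Nat.eq_zero_or_pos n with h0 | h0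
    · subst h0
      exfalso
      have h1 : (1 : ℤ) ≤ k := by exact_mod_cast hk
      push_cast at hk'
      nlinarith
    · exact Pool.HM63.mid_poset n h hcard h0 f hf hs hn k hk hk'
  · rcases Nat.eq_zero_or_pos n with h0 | h0
    · subst h0
      refine ⟨0, fun k => ⟨fun hk => absurd hk (Nat.not_lt_zero k), fun _ => ?_⟩⟩
      have h1 : desNum f (k + 1) = 0 := by
        unfold desNum
        rw [Nat.card_eq_zero]
        refine Or.inl ⟨fun σ => ?_⟩
        have h2 := σ.2.2
        rw [Nat.card_eq_zero.2 (Or.inl inferInstance)] at h2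
        omega
      rw [h1]
      exact Nat.zero_le _
    · exact Pool.HM63.uni_mid n h hcard h0 f hf hs hn hinc

end Pool.Agent.Old34.BoundedHeight
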