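import Mathlib
import Pool.Agent.NC86.Levels

set_option autoImplicit false

namespace Pool.Agent.Old34.GaugeUnimodal

/-- The number of linear extensions of `α` (`σ i` is the element in position `i`) with `k`
descents for the labelling `f`. -/
noncomputable def desNum {α : Type} [PartialOrder α] {n : ℕ} (f : α ≃ Fin n) (k : ℕ) : ℕ :=
  Nat.card {σ : Fin n ≃ α // (∀ i j : Fin n, σ i < σ j → i < j) ∧
    Nat.card {i : Fin n // ∃ h : i.val + 1 < n, f (σ ⟨i.val + 1, h⟩) < f (σ i)} = k}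

/-- After adding a least element of value `-1` and a greatest element of value `T + 1`, `κ`
increases by `1`, by `2`, or by `3` from a value congruent to `e` modulo `2`, along every
cover. -/
structure SteepGauge {α : Type} [PartialOrder α] (κ : α → ℤ) (T : ℕ) (e : ℤ) : Prop where
  cov : ∀ x y, x ⋖ y → κ y = κ x + 1 ∨ κ y = κ x + 2 ∨ (κ y = κ x + 3 ∧ κ x % 2 = e)
  bot : ∀ x, IsMin x → κ x = 0 ∨ κ x = 1 ∨ (κ x = 2 ∧ e = 1)
  top : ∀ x, IsMax x → κ x = T ∨ κ x = T - 1 ∨ (κ x = T - 2 ∧ κ x % 2 = e)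

/-- After adding a least element of value `0` and a greatest element of value `T`, `μ` changes by
`0`, by `1`, or by `-1` from a value congruent to `e` modulo `2`, along every cover. -/
structure FlatGauge {α : Type} [PartialOrder α] (μ : α → ℤ) (T : ℕ) (e : ℤ) : Prop where
  cov : ∀ x y, x ⋖ y → μ y = μ x ∨ μ y = μ x + 1 ∨ (μ y = μ x - 1 ∧ μ x % 2 = e)
  bot : ∀ x, IsMin x → μ x = 0 ∨ μ x = 1 ∨ (μ x = -1 ∧ e = 0)
  top : ∀ x, IsMax x → μ x = T ∨ μ x = T - 1 ∨ (μ x = T + 1 ∧ μ x % 2 = e)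

/-- `α` has order dimension at most two, or the descent numbers of a natural labelling of `α` are
log-concave. -/
def Harmless (α : Type) [PartialOrder α] : Prop :=
  (∃ r s : α → ℕ, ∀ x y : α, x ≤ y ↔ r x ≤ r y ∧ s x ≤ s y) ∨
    ∃ (n : ℕ) (g : α ≃ Fin n), (∀ x y : α, x < y → g x < g y) ∧
      ∀ k, desNum g k * desNum g (k + 2) ≤ desNum g (k + 1) ^ 2

/-- For `i ≥ 1` the elements of level `i` form a harmless poset, and they are all incomparable
to, or all above, or all below, all elements of smaller level. -/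
structure Pieces {α : Type} [PartialOrder α] (lev : α → ℕ) : Prop where
  harmless : ∀ i, 0 < i → Harmless {x // lev x = i}
  place : ∀ i, 0 < i → (∀ x y, lev x < i → lev y = i → ¬ x ≤ y ∧ ¬ y ≤ x) ∨
    (∀ x y, lev x < i → lev y = i → x < y) ∨ (∀ x y, lev x < i → lev y = i → y < x)

theorem result :
    ∀ (α : Type) [Fintype α] [PartialOrder α] (f : α ≃ Fin (Fintype.card α)),
      (∀ x y : α, x < y → f x < f y) →
      ∀ lev : α → ℕ, Pieces lev →
        ((∀ a b c d e : {x // lev x = 0}, a < b → b < c → c < d → ¬ d < e) ∨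
          ∃ T T' : ℕ,
            (∃ (κ : {x // lev x = 0} → ℤ) (e : ℤ), SteepGauge κ T e) ∧
            (∃ (μ : {x // lev x = 0} → ℤ) (e : ℤ), FlatGauge μ T' e) ∧
            (T ≤ T' + 1 ∨ (T = T' + 2 ∧ Even (Nat.card {x // lev x = 0} + T)))) →
        ∃ m : ℕ, ∀ k : ℕ, (k < m → desNum f k ≤ desNum f (k + 1)) ∧
          (m ≤ k → desNum f (k + 1) ≤ desNum f k) := by
  intro α _ _ f hf lev hlev h
  rcases h with h5 | ⟨T, T', ⟨κ, e, hκ⟩, ⟨μ, e', hμ⟩, hT⟩
  · exact Pool.NC86.noFive_levels α f hf lev hlev.harmless hlev.place h5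
  · exact Pool.NC86.gauge_levels α f hf lev hlev.harmless hlev.place T T'
      ⟨κ, e, hκ.cov, hκ.bot, hκ.top⟩ ⟨μ, e', hμ.cov, hμ.bot, hμ.top⟩ hT

end Pool.Agent.Old34.GaugeUnimodal
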