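import Mathlib
import Pool.Agent.PH48.Fin25

set_option autoImplicit false

namespace Pool.Agent.Old34.ShortChains

/-- The number of linear extensions of `α` (`σ i` is the element in position `i`) with `k`
descents for the labelling `f`. -/
noncomputable def desNum {α : Type} [PartialOrder α] {n : ℕ} (f : α ≃ Fin n) (k : ℕ) : ℕ :=
  Nat.card {σ : Fin n ≃ α // (∀ i j : Fin n, σ i < σ j → i < j) ∧
    Nat.card {i : Fin n // ∃ h : i.val + 1 < n, f (σ ⟨i.val + 1, h⟩) < f (σ i)} = k}

theorem result :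
    ∃ c : ℝ, 0 < c ∧ ∀ n : ℕ, 2 ≤ n → ∀ (α : Type) [PartialOrder α] (f : α ≃ Fin n),
      (∀ x y : α, x < y → f x < f y) →
      (∀ s : Finset α, IsChain (· ≤ ·) (s : Set α) → (s.card : ℝ) ≤ c * √(n / Real.log n)) →
      ∃ m : ℕ, ∀ k : ℕ, (k < m → desNum f k ≤ desNum f (k + 1)) ∧
        (m ≤ k → desNum f (k + 1) ≤ desNum f k) := by
  obtain ⟨c, hc, h⟩ := Pool.SC25.short_chains
  refine ⟨min c (1 / 2), lt_min hc (by norm_num), fun n hn α _ f hf hs => ?_⟩
  have : Fintype α := Fintype.ofEquiv _ f.symm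
  rcases Nat.lt_or_ge n 3 with h3 | h3
  · exfalso
    have h2 : n = 2 := by omega
    subst h2
    have h4 := hs {f.symm 0} (by simp)
    rw [Finset.card_singleton] at h4
    have h5 : (1 / 2 : ℝ) < Real.log 2 := by
      have := Real.log_two_gt_d9
      linarith
    have h6 : √((2 : ℕ) / Real.log (2 : ℕ)) < 2 := by
      rw [Real.sqrt_lt' (by norm_num)]
      push_cast
      rw [div_lt_iff₀ (by linarith)]
      linarith
    have h7 : min c (1 / 2) * √((2 : ℕ) / Real.log (2 : ℕ)) ≤
        1 / 2 * √((2 : ℕ) / Real.log (2 : ℕ)) :=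
      mul_le_mul_of_nonneg_right (min_le_right _ _) (Real.sqrt_nonneg _)
    push_cast at h4 h6 h7
    linarith
  · refine h n h3 α f hf fun s hs' => (hs s hs').trans ?_
    exact mul_le_mul_of_nonneg_right (min_le_left _ _) (Real.sqrt_nonneg _)

end Pool.Agent.Old34.ShortChains
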